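import Mathlib
import Pool.Agent.Y866.EC.Stm

set_option autoImplicit false

namespace Pool.Agent.Y930.EC

open Finset Pool.Agent.Y866.EC

theorem mem_fixS_sup {F V : Type} [Field F] [AddCommGroup V] [Module F V] {Z Z' : Submodule F V}
    {g : V ≃ₗ[F] V} (h : g ∈ FixS Z) (h' : g ∈ FixS Z') : g ∈ FixS (Z' ⊔ Z) := by
  intro v hv
  obtain ⟨a, ha, b, hb, rfl⟩ := Submodule.mem_sup.1 hv
  rw [map_add, h' a ha, h b hb]

theorem mem_fixS_inf {F V : Type} [Field F] [AddCommGroup V] [Module F V] {Z Z' : Submodule F V}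
    {s z : V ≃ₗ[F] V} (hs : s ∈ FixS Z') (h : s⁻¹ * z ∈ FixS Z) : z ∈ FixS (Z' ⊓ Z) := by
  intro v hv
  have h1 : (s⁻¹ * z) v = v := h v hv.2
  have h2 : s ((s⁻¹ * z) v) = z v := by
    show s (s⁻¹ (z v)) = z v
    exact s.apply_symm_apply (z v)
  rw [← h2, h1]
  exact hs v hv.1

open Classical in
theorem t_dens (hcard : S_CARD) : S_DENS := by
  intro F V _ _ _ _ _ _ hq Z Z' f B hB hf hfZ hf0
  have hfin : Module.Finite F V := inferInstance
  have hz0 : ∀ z, z ∉ FixS (Z' ⊓ Z) → ∀ s ∈ univ.filter (fun s => s ∈ FixS Z'),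
      f (s⁻¹ * z) = 0 := by
    intro z hz s hs
    apply hf0
    intro h
    exact hz (mem_fixS_inf (Finset.mem_filter.1 hs).2 h)
  refine ⟨?_, ?_⟩
  swap
  · intro z hz
    rw [Finset.sum_eq_zero (hz0 z hz), zero_div]
  intro z hz
  set q : ℕ := Fintype.card F with hqdef
  set D : ℕ := Module.finrank F V with hD
  set a : ℕ := Module.finrank F (V ⧸ Z) with ha
  set a' : ℕ := Module.finrank F (V ⧸ Z') with ha'
  set u : ℕ := Module.finrank F (V ⧸ (Z' ⊔ Z)) with hu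
  set w : ℕ := Module.finrank F (V ⧸ (Z' ⊓ Z)) with hw
  -- dimensions
  have hdim : u + w = a' + a := by
    have e1 := Submodule.finrank_sup_add_finrank_inf_eq Z' Z
    have e2 := Submodule.finrank_quotient_add_finrank (Z' ⊔ Z)
    have e3 := Submodule.finrank_quotient_add_finrank (Z' ⊓ Z)
    have e4 := Submodule.finrank_quotient_add_finrank Z'
    have e5 := Submodule.finrank_quotient_add_finrank Z
    omega
  -- the number of nonzero terms
  set K : Finset (V ≃ₗ[F] V) := univ.filter (fun s => s ∈ FixS Z') with hK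
  set K1 : Finset (V ≃ₗ[F] V) := K.filter (fun s => s⁻¹ * z ∈ FixS Z) with hK1
  have hK1card : (K1.card : ℝ) ≤ (q : ℝ) ^ (u * D) := by
    have h1 : K1.card ≤ Nat.card (FixS (Z' ⊔ Z)) := by
      rcases K1.eq_empty_or_nonempty with h0 | ⟨s0, hs0⟩
      · rw [h0]; simp
      · have hs0' := Finset.mem_filter.1 hs0
        have hs0K := (Finset.mem_filter.1 hs0'.1).2
        have : K1.card ≤ (univ.filter (fun g : V ≃ₗ[F] V => g ∈ FixS (Z' ⊔ Z))).card := by
          refine Finset.card_le_card_of_injOn (fun s => s0⁻¹ * s) ?_ ?_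
          · intro s hs
            have hs' := Finset.mem_filter.1 (Finset.mem_coe.1 hs)
            have hsK := (Finset.mem_filter.1 hs'.1).2
            simp only [Finset.coe_filter, Set.mem_ofPred_eq, Finset.mem_univ, true_and]
            refine mem_fixS_sup ?_ ?_
            · have e : s0⁻¹ * s = (s0⁻¹ * z) * (s⁻¹ * z)⁻¹ := by group
              rw [e]
              exact (FixS Z).mul_mem hs0'.2 ((FixS Z).inv_mem hs'.2)
            · exact (FixS Z').mul_mem ((FixS Z').inv_mem hs0K) hsK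
          · intro s _ s' _ h
            exact mul_left_cancel h
        refine this.trans (le_of_eq ?_)
        rw [Nat.card_eq_fintype_card, Fintype.card_subtype]
    have h2 := (hcard F V (Z' ⊔ Z)).1
    have h3 : K1.card ≤ q ^ (u * D) := h1.trans h2
    exact_mod_cast h3
  have hq0 : (0 : ℝ) < q := by
    have : 0 < q := by omega
    exact_mod_cast this
  have hq2 : (0 : ℝ) < (q : ℝ) - 2 := by
    have : (3 : ℝ) ≤ q := by exact_mod_cast hq
    linarith
  have hq1 : (0 : ℝ) < (q : ℝ) - 1 := by linarith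
  have hsum : ∑ s ∈ K, f (s⁻¹ * z) ≤ (q : ℝ) ^ (u * D) * (B / (q : ℝ) ^ (a * D)) := by
    have h1 : ∑ s ∈ K, f (s⁻¹ * z) = ∑ s ∈ K1, f (s⁻¹ * z) := by
      symm
      refine Finset.sum_subset (Finset.filter_subset _ _) ?_
      intro s hs hs1
      apply hf0
      intro h
      exact hs1 (Finset.mem_filter.2 ⟨hs, h⟩)
    rw [h1]
    calc ∑ s ∈ K1, f (s⁻¹ * z) ≤ ∑ _s ∈ K1, B / (q : ℝ) ^ (a * D) :=
          Finset.sum_le_sum fun s hs => hfZ _ (Finset.mem_filter.1 hs).2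
      _ = (K1.card : ℝ) * (B / (q : ℝ) ^ (a * D)) := by rw [Finset.sum_const, nsmul_eq_mul]
      _ ≤ _ := mul_le_mul_of_nonneg_right hK1card (by positivity)
  have hKcard : ((q : ℝ) - 2) * (q : ℝ) ^ (a' * D) ≤ ((q : ℝ) - 1) * (Nat.card (FixS Z') : ℝ) := by
    have h2 := (hcard F V Z').2
    have e1 : ((q - 2 : ℕ) : ℝ) = (q : ℝ) - 2 := by
      rw [Nat.cast_sub (by omega)]; norm_num
    have e2 : ((q - 1 : ℕ) : ℝ) = (q : ℝ) - 1 := by
      rw [Nat.cast_sub (by omega)]; norm_num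
    have h3 : ((q - 2 : ℕ) : ℝ) * (q : ℝ) ^ (a' * D) ≤
        ((q - 1 : ℕ) : ℝ) * (Nat.card (FixS Z') : ℝ) := by exact_mod_cast h2
    rw [e1, e2] at h3
    exact h3
  have hcardpos : (0 : ℝ) < (Nat.card (FixS Z') : ℝ) := by
    have h1 : 0 < ((q : ℝ) - 2) * (q : ℝ) ^ (a' * D) := by positivity
    have h2 := h1.trans_le hKcard
    exact pos_of_mul_pos_right h2 hq1.le
  rw [div_le_iff₀ hcardpos]
  refine hsum.trans ?_
  -- q^(uD) B / q^(aD) ≤ B (q-1)/(q-2) / q^(wD) * card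
  have hpow : (q : ℝ) ^ (u * D) * (q : ℝ) ^ (w * D) = (q : ℝ) ^ (a' * D) * (q : ℝ) ^ (a * D) := by
    rw [← pow_add, ← pow_add, ← Nat.add_mul, ← Nat.add_mul, hdim]
  have h1 : (q : ℝ) ^ (u * D) * (B / (q : ℝ) ^ (a * D)) =
      B * (q : ℝ) ^ (a' * D) / (q : ℝ) ^ (w * D) := by
    have p1 : (q : ℝ) ^ (a * D) ≠ 0 := by positivity
    have p2 : (q : ℝ) ^ (w * D) ≠ 0 := by positivity
    rw [mul_div_assoc', div_eq_div_iff p1 p2]
    calc (q : ℝ) ^ (u * D) * B * (q : ℝ) ^ (w * D) =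
        B * ((q : ℝ) ^ (u * D) * (q : ℝ) ^ (w * D)) := by ring
      _ = B * (q : ℝ) ^ (a' * D) * (q : ℝ) ^ (a * D) := by rw [hpow]; ring
  rw [h1]
  have h2 : B * (((q : ℝ) - 1) / ((q : ℝ) - 2)) / (q : ℝ) ^ (w * D) * (Nat.card (FixS Z') : ℝ) =
      B * ((((q : ℝ) - 1) * (Nat.card (FixS Z') : ℝ)) / ((q : ℝ) - 2)) / (q : ℝ) ^ (w * D) := by
    ring
  rw [h2]
  apply div_le_div_of_nonneg_right _ (by positivity)
  apply mul_le_mul_of_nonneg_left _ hB
  rw [le_div_iff₀ hq2]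
  linarith

end Pool.Agent.Y930.EC
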