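import Mathlib
import Pool.Agent.Y866.EC.Stm

set_option autoImplicit false

namespace Pool.Agent.Y930.EC

open Finset Pool.Agent.Y866.EC

/-- the functionals which vanish on the vectors that start with zero and vanish on `B` -/
noncomputable def Lf {F : Type} [Field F] (m : ℕ) [NeZero m] (B : Finset F) :
    (Fin m → F) →ₗ[F] (F × (B → F)) where
  toFun r := (r 0, fun c => ∑ i : Fin m, (c : F) ^ (i : ℕ) * r i)
  map_add' := by
    intro a b
    refine Prod.ext rfl ?_
    funext c
    simp only [Pi.add_apply, mul_add, Finset.sum_add_distrib, Prod.snd_add]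
  map_smul' := by
    intro r a
    refine Prod.ext rfl ?_
    funext c
    simp only [Pi.smul_apply, smul_eq_mul, RingHom.id_apply, Prod.smul_snd, Finset.mul_sum]
    exact Finset.sum_congr rfl fun i _ => by ring

theorem exists_li {F : Type} [Field F] (m : ℕ) [NeZero m] (B : Finset F) :
    ∃ r : Fin (m - 1 - B.card) → (Fin m → F), LinearIndependent F r ∧
      ∀ k, r k 0 = 0 ∧ ∀ c ∈ B, ∑ i : Fin m, c ^ (i : ℕ) * r k i = 0 := by
  classical
  have h1 := LinearMap.finrank_range_add_finrank_ker (Lf m B)
  have h2 : Module.finrank F (LinearMap.range (Lf m B)) ≤ 1 + B.card := by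
    refine (Submodule.finrank_le _).trans ?_
    rw [Module.finrank_prod, Module.finrank_self, Module.finrank_pi]
    simp
  have h3 : Module.finrank F (Fin m → F) = m := by simp
  have h4 : m - 1 - B.card ≤ Module.finrank F (LinearMap.ker (Lf m B)) := by
    rw [h3] at h1
    omega
  let b := Module.finBasis F (LinearMap.ker (Lf m B))
  refine ⟨fun k => (b (Fin.castLE h4 k) : Fin m → F), ?_, ?_⟩
  · have hb := b.linearIndependent
    have h5 : LinearIndependent F (fun k => ((LinearMap.ker (Lf m B)).subtype (b k))) :=
      hb.map' _ (Submodule.ker_subtype _)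
    exact h5.comp _ (Fin.castLE_injective h4)
  · intro k
    have hk : (b (Fin.castLE h4 k) : Fin m → F) ∈ LinearMap.ker (Lf m B) :=
      (b (Fin.castLE h4 k)).2
    rw [LinearMap.mem_ker] at hk
    constructor
    · exact congrArg Prod.fst hk
    · intro c hc
      exact congrFun (congrArg Prod.snd hk) ⟨c, hc⟩

theorem t_dim : S_DIM := by
  intro F _ m _ A B
  classical
  obtain ⟨s, hs, hsA⟩ := exists_li m A
  obtain ⟨r, hr, hrB⟩ := exists_li m B
  let Φ : (Fin (m - 1 - A.card) → Fin (m - 1 - B.card) → F) →ₗ[F] Ar F m :=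
    { toFun := fun Q => fun i j => ∑ l, ∑ k, Q l k * r k i * s l j
      map_add' := by
        intro Q Q'
        funext i j
        simp only [Pi.add_apply, add_mul, Finset.sum_add_distrib]
      map_smul' := by
        intro c Q
        funext i j
        simp only [Pi.smul_apply, smul_eq_mul, RingHom.id_apply, Finset.mul_sum]
        exact Finset.sum_congr rfl fun l _ => Finset.sum_congr rfl fun k _ => by ring }
  have hΦ : ∀ Q i j, Φ Q i j = ∑ l, ∑ k, Q l k * r k i * s l j := fun Q i j => rfl
  have hmem : ∀ Q, Φ Q ∈ YY m A B := by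
    intro Q
    refine ⟨fun j => ?_, fun i => ?_, fun c hc j => ?_, fun c hc i => ?_⟩
    · rw [hΦ]
      refine Finset.sum_eq_zero fun l _ => Finset.sum_eq_zero fun k _ => ?_
      rw [(hrB k).1]; ring
    · rw [hΦ]
      refine Finset.sum_eq_zero fun l _ => Finset.sum_eq_zero fun k _ => ?_
      rw [(hsA l).1]; ring
    · simp only [hΦ, Finset.mul_sum]
      rw [Finset.sum_comm]
      refine Finset.sum_eq_zero fun l _ => ?_
      rw [Finset.sum_comm]
      refine Finset.sum_eq_zero fun k _ => ?_
      have : ∀ i : Fin m, c ^ (i : ℕ) * (Q l k * r k i * s l j) =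
          (Q l k * s l j) * (c ^ (i : ℕ) * r k i) := fun i => by ring
      rw [Finset.sum_congr rfl fun i _ => this i, ← Finset.mul_sum, (hrB k).2 c hc, mul_zero]
    · simp only [hΦ, Finset.mul_sum]
      rw [Finset.sum_comm]
      refine Finset.sum_eq_zero fun l _ => ?_
      rw [Finset.sum_comm]
      refine Finset.sum_eq_zero fun k _ => ?_
      have : ∀ j : Fin m, c ^ (j : ℕ) * (Q l k * r k i * s l j) =
          (Q l k * r k i) * (c ^ (j : ℕ) * s l j) := fun j => by ring
      rw [Finset.sum_congr rfl fun i _ => this i, ← Finset.mul_sum, (hsA l).2 c hc, mul_zero]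
  let Ψ := Φ.codRestrict (YY m A B) hmem
  have hinj : Function.Injective Ψ := by
    rw [injective_iff_map_eq_zero]
    intro Q hQ
    have h0 : ∀ i j, ∑ l, ∑ k, Q l k * r k i * s l j = 0 := by
      intro i j
      have h1 : Φ Q = 0 := congrArg Subtype.val hQ
      rw [← hΦ, h1]
      rfl
    have h1 : ∀ i l, ∑ k, Q l k * r k i = 0 := by
      intro i
      refine Fintype.linearIndependent_iff.1 hs (fun l => ∑ k, Q l k * r k i) ?_
      funext j
      rw [Finset.sum_apply]
      simp only [Pi.smul_apply, smul_eq_mul, Pi.zero_apply]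
      rw [← h0 i j]
      exact Finset.sum_congr rfl fun l _ => by rw [Finset.sum_mul]
    funext l
    refine funext (Fintype.linearIndependent_iff.1 hr (fun k => Q l k) ?_)
    funext i
    rw [Finset.sum_apply]
    simp only [Pi.smul_apply, smul_eq_mul, Pi.zero_apply]
    exact h1 i l
  have h := LinearMap.finrank_le_finrank_of_injective hinj
  have h2 : Module.finrank F (Fin (m - 1 - A.card) → Fin (m - 1 - B.card) → F) =
      (m - 1 - A.card) * (m - 1 - B.card) := by
    rw [Module.finrank_pi_fintype]
    simp
  rw [h2] at h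
  exact h

end Pool.Agent.Y930.EC
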