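import Mathlib
import Pool.Agent.Y866.EC.Stm

set_option autoImplicit false

namespace Pool.Agent.Y930.EC

open Finset Pool.Agent.Y866.EC

theorem mem_Zc_of_mem_ZW {F : Type} [Field F] (m : ℕ) (v : Ar F m) :
    ∀ w : List F, v ∈ ZW m w → ∀ c ∈ w, v ∈ Zc m c := by
  intro w
  induction w with
  | nil => intro _ c hc; simp at hc
  | cons a w ih =>
    intro h c hc
    have h' : v ∈ Zc m a ⊓ ZW m w := h
    rcases List.mem_cons.1 hc with rfl | hc
    · exact h'.1
    · exact ih h'.2 c hc

theorem t_vdm : S_VDM := by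
  intro F _ _ m w hm
  rw [eq_bot_iff]
  intro v hv
  rw [Submodule.mem_bot]
  funext i j
  let p : Polynomial F := ∑ i : Fin m, Polynomial.C (v i j) * Polynomial.X ^ (i : ℕ)
  have hdeg : p.degree < (w.toFinset.card : WithBot ℕ) := by
    refine lt_of_lt_of_le (Polynomial.degree_sum_fin_lt (fun i : Fin m => v i j)) ?_
    exact_mod_cast hm
  have heval : ∀ c ∈ w.toFinset, p.eval c = 0 := by
    intro c hc
    have h1 : v ∈ Zc m c := mem_Zc_of_mem_ZW m v w hv c (List.mem_toFinset.1 hc)
    have h2 : ∑ i : Fin m, c ^ (i : ℕ) * v i j = 0 := h1 j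
    rw [← h2]
    simp only [p, Polynomial.eval_finsetSum, Polynomial.eval_mul, Polynomial.eval_C,
      Polynomial.eval_pow, Polynomial.eval_X]
    exact Finset.sum_congr rfl fun i _ => mul_comm _ _
  have hp : p = 0 := Polynomial.eq_zero_of_degree_lt_of_eval_finset_eq_zero w.toFinset hdeg heval
  have hc : p.coeff (i : ℕ) = v i j := by
    simp only [p, Polynomial.finsetSum_coeff, Polynomial.coeff_C_mul, Polynomial.coeff_X_pow]
    rw [Finset.sum_eq_single i]
    · simp
    · intro b _ hb
      rw [if_neg, mul_zero]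
      intro h
      exact hb (Fin.ext h.symm)
    · intro h; exact absurd (Finset.mem_univ i) h
  rw [hp, Polynomial.coeff_zero] at hc
  exact hc.symm

theorem fixS_conj {F V : Type} [Field F] [AddCommGroup V] [Module F V] (Z Z' : Submodule F V)
    (h : V ≃ₗ[F] V) (hh : ∀ v, v ∈ Z ↔ h v ∈ Z') (g : V ≃ₗ[F] V) :
    g ∈ FixS Z ↔ h * g * h⁻¹ ∈ FixS Z' := by
  constructor
  · intro hg w hw
    have h1 : h (h⁻¹ w) = w := h.apply_symm_apply w
    have h2 : h⁻¹ w ∈ Z := by rw [hh, h1]; exact hw
    show h (g (h⁻¹ w)) = w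
    rw [hg _ h2, h1]
  · intro hg v hv
    have h1 : h⁻¹ (h v) = v := h.symm_apply_apply v
    have h2 : h (g (h⁻¹ (h v))) = h v := hg (h v) ((hh v).1 hv)
    rw [h1] at h2
    exact h.injective h2

theorem card_fixS_conj {F V : Type} [Field F] [AddCommGroup V] [Module F V] (Z Z' : Submodule F V)
    (h : V ≃ₗ[F] V) (hh : ∀ v, v ∈ Z ↔ h v ∈ Z') :
    Nat.card (FixS Z) = Nat.card (FixS Z') := by
  refine Nat.card_congr (Equiv.subtypeEquiv (MulAut.conj h).toEquiv ?_)
  intro g
  exact fixS_conj Z Z' h hh g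

/-- the shear -/
def shear {F : Type} [Field F] (k : ℕ) (c : F) : Ar F (k + 1) ≃ₗ[F] Ar F (k + 1) where
  toFun v := fun i j => if i = 0 then ∑ i : Fin (k + 1), c ^ (i : ℕ) * v i j else v i j
  invFun v := fun i j => if i = 0 then v 0 j - ∑ i : Fin k, c ^ (i.succ : ℕ) * v i.succ j
    else v i j
  map_add' := by
    intro a b
    funext i j
    simp only [Pi.add_apply, mul_add, Finset.sum_add_distrib]
    split_ifs <;> rfl
  map_smul' := by
    intro r a
    funext i j
    simp only [Pi.smul_apply, smul_eq_mul, RingHom.id_apply]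
    split_ifs
    · rw [Finset.mul_sum]
      exact Finset.sum_congr rfl fun i _ => by ring
    · rfl
  left_inv := by
    intro v
    funext i j
    by_cases h : i = 0
    · subst h
      simp only [if_true, Fin.succ_ne_zero, if_false]
      rw [Fin.sum_univ_succ]
      simp
    · simp [h]
  right_inv := by
    intro v
    funext i j
    by_cases h : i = 0
    · subst h
      simp only [if_true]
      rw [Fin.sum_univ_succ]
      simp [Fin.succ_ne_zero]
    · simp [h]

theorem t_conj : S_CONJ := by
  intro F _ m c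
  cases m with
  | zero =>
    have : Zc 0 c = Zc 0 (0 : F) := by
      ext v
      constructor
      · intro _ j; exact j.elim0
      · intro _ j; exact j.elim0
    rw [this]
  | succ k =>
    refine card_fixS_conj _ _ (shear k c) ?_
    intro v
    have e : ∀ j, ∑ i : Fin (k + 1), (0 : F) ^ (i : ℕ) * (shear k c v) i j =
        ∑ i : Fin (k + 1), c ^ (i : ℕ) * v i j := by
      intro j
      rw [Fin.sum_univ_succ]
      have h1 : ∀ i : Fin k, (0 : F) ^ ((i.succ : Fin (k + 1)) : ℕ) * (shear k c v) i.succ j = 0 := by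
        intro i
        rw [Fin.val_succ, pow_succ]
        simp
      rw [Finset.sum_eq_zero fun i _ => h1 i, add_zero]
      simp [shear]
    constructor
    · intro h j
      have h2 : ∑ i : Fin (k + 1), c ^ (i : ℕ) * v i j = 0 := h j
      show ∑ i : Fin (k + 1), (0 : F) ^ (i : ℕ) * (shear k c v) i j = 0
      rw [e, h2]
    · intro h j
      have h2 : ∑ i : Fin (k + 1), (0 : F) ^ (i : ℕ) * (shear k c v) i j = 0 := h j
      show ∑ i : Fin (k + 1), c ^ (i : ℕ) * v i j = 0
      rw [← e, h2]

end Pool.Agent.Y930.EC
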